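import Mathlib

/-! # A right LCM monoid whose core irreducible elements are not closed under intersections -/

namespace Pool.Agent.Results.MP_4a71d8_al.NotCapClosed

section defs
variable {S : Type*} [Monoid S]

/-- the principal right ideal `sS` -/
def rightIdeal (s : S) : Set S := {z | ∃ x, z = s * x}

variable (S) in
/-- left cancellative, and `sS ∩ tS` is empty or a principal right ideal -/
def RightLCM : Prop :=
  (∀ a x y : S, a * x = a * y → x = y) ∧
  ∀ s t : S, rightIdeal s ∩ rightIdeal t = ∅ ∨ ∃ r : S, rightIdeal s ∩ rightIdeal t = rightIdeal r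

variable (S) in
/-- the core: all `a` with `aS ∩ sS ≠ ∅` for every `s` -/
def core : Set S := {a | ∀ s : S, (rightIdeal a ∩ rightIdeal s).Nonempty}

/-- `s` is not in the core, and whenever `s = ta` with `a` in the core, `a` is a unit -/
def CoreIrreducible (s : S) : Prop :=
  s ∉ core S ∧ ∀ t a : S, a ∈ core S → s = t * a → IsUnit a

variable (S) in
/-- every right LCM of two core irreducible elements is core irreducible -/
def CapClosed : Prop := ∀ s t r : S, CoreIrreducible s → CoreIrreducible t →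
  rightIdeal s ∩ rightIdeal t = rightIdeal r → CoreIrreducible r

variable (S) in
/-- `S = S_ci^1 S_c` -/
def CoreFactorable : Prop :=
  ∀ s : S, ∃ t a : S, (CoreIrreducible t ∨ t = 1) ∧ a ∈ core S ∧ s = t * a

end defs

/-- The carrier: a word `w` in two letters together with a point `(p, q)` of `ℤ²`, where
`(p, q) ≥ (0, 0)`, or `w` is nonempty and `(p, q) ≥ (1, -1)`. -/
@[ext] structure E : Type where
  w : List Bool
  p : ℤ
  q : ℤ
  h : (0 ≤ p ∧ 0 ≤ q) ∨ (w ≠ [] ∧ 1 ≤ p ∧ -1 ≤ q)

namespace E

/-- the multiplication -/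
def mul (x y : E) : E where
  w := x.w ++ y.w
  p := if y.w = [] then x.p + y.p else y.p
  q := if y.w = [] then x.q + y.q else y.q
  h := by
    have hx := x.h
    have hy := y.h
    by_cases h0 : y.w = []
    · simp only [h0, if_true, List.append_nil]
      rcases hx with hx | hx <;> rcases hy with hy | hy
      · left; omega
      · exact absurd h0 hy.1
      · right; exact ⟨hx.1, by omega, by omega⟩
      · exact absurd h0 hy.1
    · simp only [h0, if_false]
      rcases hy with hy | hy
      · left; omega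
      · right; exact ⟨by simp [h0], by omega, by omega⟩

theorem mul_assoc' (x y z : E) : mul (mul x y) z = mul x (mul y z) := by
  ext1
  · simp [mul]
  · by_cases h1 : z.w = [] <;> by_cases h2 : y.w = [] <;> simp [mul, h1, h2, add_assoc]
  · by_cases h1 : z.w = [] <;> by_cases h2 : y.w = [] <;> simp [mul, h1, h2, add_assoc]

instance : Monoid E where
  mul := mul
  one := ⟨[], 0, 0, by simp⟩
  mul_assoc := mul_assoc'
  one_mul x := by
    change mul ⟨[], 0, 0, _⟩ x = x
    ext1 <;> simp [mul]
  mul_one x := by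
    change mul x ⟨[], 0, 0, _⟩ = x
    ext1 <;> simp [mul]

theorem mul_w (x y : E) : (x * y).w = x.w ++ y.w := rfl
theorem mul_p (x y : E) : (x * y).p = if y.w = [] then x.p + y.p else y.p := rfl
theorem mul_q (x y : E) : (x * y).q = if y.w = [] then x.q + y.q else y.q := rfl
@[simp] theorem one_w : (1 : E).w = [] := rfl
@[simp] theorem one_p : (1 : E).p = 0 := rfl
@[simp] theorem one_q : (1 : E).q = 0 := rfl

instance : Countable E := by
  have : Function.Injective (fun x : E => (x.w, x.p, x.q)) := by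
    intro x y h
    simp only [Prod.mk.injEq] at h
    exact E.ext h.1 h.2.1 h.2.2
  exact this.countable

theorem leftCancel (a x y : E) (h : a * x = a * y) : x = y := by
  have hw := congrArg E.w h
  have hp := congrArg E.p h
  have hq := congrArg E.q h
  rw [mul_w, mul_w] at hw
  have hw' := List.append_cancel_left hw
  rw [mul_p, mul_p, hw'] at hp
  rw [mul_q, mul_q, hw'] at hq
  split_ifs at hp hq
  · exact E.ext hw' (by omega) (by omega)
  · exact E.ext hw' hp hq

theorem mem_rightIdeal {s z : E} : z ∈ rightIdeal s ↔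
    (z.w = s.w ∧ s.p ≤ z.p ∧ s.q ≤ z.q) ∨ (∃ u, u ≠ [] ∧ z.w = s.w ++ u) := by
  constructor
  · rintro ⟨x, rfl⟩
    have hx := x.h
    by_cases h0 : x.w = []
    · left
      rw [mul_w, mul_p, mul_q, h0]
      simp only [if_true, List.append_nil, true_and]
      rcases hx with hx | hx
      · omega
      · exact absurd h0 hx.1
    · right
      exact ⟨x.w, h0, rfl⟩
  · rintro (⟨h1, h2, h3⟩ | ⟨u, hu, h⟩)
    · refine ⟨⟨[], z.p - s.p, z.q - s.q, Or.inl (by omega)⟩, ?_⟩
      ext1
      · simp [mul_w, h1]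
      · simp [mul_p]
      · simp [mul_q]
    · refine ⟨⟨u, z.p, z.q, ?_⟩, ?_⟩
      · rcases z.h with h' | h'
        · exact Or.inl h'
        · exact Or.inr ⟨hu, h'.2⟩
      · ext1
        · simp [mul_w, h]
        · simp [mul_p, hu]
        · simp [mul_q, hu]

theorem core_eq : core E = {a | a.w = []} := by
  ext a
  constructor
  · intro ha
    by_contra h0
    change a.w ≠ [] at h0
    obtain ⟨x, l, hl⟩ := List.exists_cons_of_ne_nil h0
    obtain ⟨z, hz1, hz2⟩ := ha ⟨[!x], 0, 0, by simp⟩
    rw [mem_rightIdeal] at hz1 hz2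
    have h1 : ∃ u, z.w = x :: u := by
      rcases hz1 with ⟨h, -⟩ | ⟨u, -, h⟩
      · exact ⟨l, by rw [h, hl]⟩
      · exact ⟨l ++ u, by rw [h, hl]; rfl⟩
    have h2 : ∃ u, z.w = (!x) :: u := by
      rcases hz2 with ⟨h, -⟩ | ⟨u, -, h⟩
      · exact ⟨[], h⟩
      · exact ⟨u, by rw [h]; rfl⟩
    obtain ⟨u1, h1⟩ := h1
    obtain ⟨u2, h2⟩ := h2
    rw [h1] at h2
    simp at h2
  · intro ha s
    change a.w = [] at ha
    refine ⟨s * ⟨[true], 0, 0, by simp⟩, ?_, ⟨_, rfl⟩⟩
    rw [mem_rightIdeal]
    right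
    exact ⟨s.w ++ [true], by simp, by rw [ha, mul_w]; rfl⟩

theorem rightLCM : RightLCM E := by
  refine ⟨leftCancel, fun s t => ?_⟩
  by_cases h1 : s.w = t.w
  · right
    refine ⟨⟨s.w, max s.p t.p, max s.q t.q, ?_⟩, ?_⟩
    · rcases s.h with h | ⟨h0, h⟩
      · left; omega
      · right; exact ⟨h0, by omega, by omega⟩
    · ext z
      rw [Set.mem_inter_iff, mem_rightIdeal, mem_rightIdeal, mem_rightIdeal]
      rw [← h1]
      constructor
      · rintro ⟨h2 | h2, h3⟩
        · rcases h3 with h3 | h3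
          · left
            exact ⟨h2.1, by simp only; omega, by simp only; omega⟩
          · right; exact h3
        · right; exact h2
      · rintro (⟨h2, h3, h4⟩ | h2)
        · simp only at h2 h3 h4
          exact ⟨Or.inl ⟨h2, by omega, by omega⟩, Or.inl ⟨h2, by omega, by omega⟩⟩
        · exact ⟨Or.inr h2, Or.inr h2⟩
  · by_cases h2 : ∃ u, t.w = s.w ++ u
    · obtain ⟨u, hu⟩ := h2
      have hu0 : u ≠ [] := by
        rintro rfl
        exact h1 (by rw [hu, List.append_nil])
      right
      refine ⟨t, ?_⟩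
      ext z
      rw [Set.mem_inter_iff]
      refine ⟨fun h => h.2, fun h => ⟨?_, h⟩⟩
      rw [mem_rightIdeal] at h ⊢
      right
      rcases h with h | ⟨v, hv, h⟩
      · exact ⟨u, hu0, by rw [h.1, hu]⟩
      · exact ⟨u ++ v, by simp [hu0], by rw [h, hu, List.append_assoc]⟩
    · by_cases h3 : ∃ u, s.w = t.w ++ u
      · obtain ⟨u, hu⟩ := h3
        have hu0 : u ≠ [] := by
          rintro rfl
          exact h1 (by rw [hu, List.append_nil])
        right
        refine ⟨s, ?_⟩
        ext z
        rw [Set.mem_inter_iff]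
        refine ⟨fun h => h.1, fun h => ⟨h, ?_⟩⟩
        rw [mem_rightIdeal] at h ⊢
        right
        rcases h with h | ⟨v, hv, h⟩
        · exact ⟨u, hu0, by rw [h.1, hu]⟩
        · exact ⟨u ++ v, by simp [hu0], by rw [h, hu, List.append_assoc]⟩
      · left
        rw [Set.eq_empty_iff_forall_notMem]
        rintro z ⟨hz1, hz2⟩
        rw [mem_rightIdeal] at hz1 hz2
        have e1 : ∃ u, z.w = s.w ++ u := by
          rcases hz1 with h | ⟨u, -, h⟩
          · exact ⟨[], by rw [h.1, List.append_nil]⟩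
          · exact ⟨u, h⟩
        have e2 : ∃ u, z.w = t.w ++ u := by
          rcases hz2 with h | ⟨u, -, h⟩
          · exact ⟨[], by rw [h.1, List.append_nil]⟩
          · exact ⟨u, h⟩
        obtain ⟨u1, e1⟩ := e1
        obtain ⟨u2, e2⟩ := e2
        rw [e1] at e2
        rcases List.append_eq_append_iff.mp e2 with ⟨v, hv, -⟩ | ⟨v, hv, -⟩
        · exact h2 ⟨v, hv⟩
        · exact h3 ⟨v, hv⟩

theorem eq_one_of_isUnit {x : E} (hx : IsUnit x) : x = 1 := by
  obtain ⟨y, hy⟩ := hx.exists_right_inv
  have hw := congrArg E.w hy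
  have hp := congrArg E.p hy
  have hq := congrArg E.q hy
  rw [mul_w, one_w, List.append_eq_nil_iff] at hw
  rw [mul_p, if_pos hw.2, one_p] at hp
  rw [mul_q, if_pos hw.2, one_q] at hq
  have h1 := x.h
  have h2 := y.h
  simp only [hw.1, ne_eq, not_true_eq_false, false_and, or_false] at h1
  simp only [hw.2, ne_eq, not_true_eq_false, false_and, or_false] at h2
  exact E.ext hw.1 (by simp only [one_p]; omega) (by simp only [one_q]; omega)

theorem coreIrreducible_iff (s : E) : CoreIrreducible s ↔
    s.w ≠ [] ∧ ((s.p = 0 ∧ s.q = 0) ∨ (s.p = 1 ∧ s.q = -1)) := by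
  constructor
  · rintro ⟨h1, h2⟩
    rw [core_eq] at h1 h2
    refine ⟨h1, ?_⟩
    have hs := s.h
    by_cases h00 : 0 ≤ s.p ∧ 0 ≤ s.q
    · left
      have h3 := h2 ⟨s.w, 0, 0, by simp⟩ ⟨[], s.p, s.q, Or.inl h00⟩ rfl
        (by ext1 <;> simp [mul_w, mul_p, mul_q])
      have h4 := eq_one_of_isUnit h3
      exact ⟨congrArg E.p h4, congrArg E.q h4⟩
    · right
      have h11 : s.w ≠ [] ∧ 1 ≤ s.p ∧ -1 ≤ s.q := by
        rcases hs with hs | hs
        · exact absurd hs h00
        · exact hs
      have h3 := h2 ⟨s.w, 1, -1, Or.inr ⟨h11.1, by omega, by omega⟩⟩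
        ⟨[], s.p - 1, s.q + 1, Or.inl (by omega)⟩ rfl
        (by ext1 <;> simp [mul_w, mul_p, mul_q])
      have h4 := eq_one_of_isUnit h3
      have h5 : s.p - 1 = 0 := congrArg E.p h4
      have h6 : s.q + 1 = 0 := congrArg E.q h4
      omega
  · rintro ⟨h1, h2⟩
    refine ⟨by rw [core_eq]; exact h1, ?_⟩
    intro t a ha hs
    rw [core_eq] at ha
    change a.w = [] at ha
    have hp := congrArg E.p hs
    have hq := congrArg E.q hs
    rw [mul_p, if_pos ha] at hp
    rw [mul_q, if_pos ha] at hq
    have h3 := a.h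
    have h4 := t.h
    simp only [ha, ne_eq, not_true_eq_false, false_and, or_false] at h3
    have h5 : a = 1 := by
      refine E.ext ha ?_ ?_
      · simp only [one_p]
        omega
      · simp only [one_q]
        omega
    rw [h5]
    exact isUnit_one

theorem not_capClosed : ¬ CapClosed E := by
  intro h
  have h1 : CoreIrreducible (⟨[true], 0, 0, by simp⟩ : E) := by
    rw [coreIrreducible_iff]; simp
  have h2 : CoreIrreducible (⟨[true], 1, -1, by simp⟩ : E) := by
    rw [coreIrreducible_iff]; simp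
  have h3 := h _ _ (⟨[true], 1, 0, by simp⟩ : E) h1 h2 (by
    ext z
    rw [Set.mem_inter_iff, mem_rightIdeal, mem_rightIdeal, mem_rightIdeal]
    constructor
    · rintro ⟨h2 | h2, h3⟩
      · rcases h3 with h3 | h3
        · left
          simp only at h2 h3 ⊢
          exact ⟨h2.1, by omega, by omega⟩
        · right; exact h3
      · right; exact h2
    · rintro (⟨h2, h3, h4⟩ | h2)
      · simp only at h2 h3 h4 ⊢
        exact ⟨Or.inl ⟨h2, by omega, by omega⟩, Or.inl ⟨h2, by omega, by omega⟩⟩
      · exact ⟨Or.inr h2, Or.inr h2⟩)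
  rw [coreIrreducible_iff] at h3
  simp at h3

theorem coreFactorable : CoreFactorable E := by
  intro s
  by_cases h0 : s.w = []
  · exact ⟨1, s, Or.inr rfl, by rw [core_eq]; exact h0, (one_mul s).symm⟩
  · by_cases h00 : 0 ≤ s.p ∧ 0 ≤ s.q
    · refine ⟨⟨s.w, 0, 0, by simp⟩, ⟨[], s.p, s.q, Or.inl h00⟩, Or.inl ?_, ?_, ?_⟩
      · rw [coreIrreducible_iff]; simp [h0]
      · rw [core_eq]; rfl
      · ext1 <;> simp [mul_w, mul_p, mul_q]
    · have h11 : s.w ≠ [] ∧ 1 ≤ s.p ∧ -1 ≤ s.q := by
        rcases s.h with hs | hs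
        · exact absurd hs h00
        · exact hs
      refine ⟨⟨s.w, 1, -1, Or.inr ⟨h0, by omega, by omega⟩⟩,
        ⟨[], s.p - 1, s.q + 1, Or.inl (by omega)⟩, Or.inl ?_, ?_, ?_⟩
      · rw [coreIrreducible_iff]; simp [h0]
      · rw [core_eq]; rfl
      · ext1 <;> simp [mul_w, mul_p, mul_q]

end E

/-- **The answer to Q1 is positive**: there is a countable right LCM monoid whose set of core
irreducible elements is not closed under intersections.  The example is moreover core factorable
and its only unit is the identity. -/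
theorem result : ∃ (S : Type) (_ : Monoid S), Countable S ∧ RightLCM S ∧ ¬ CapClosed S ∧
    CoreFactorable S ∧ ∀ x : S, IsUnit x → x = 1 :=
  ⟨E, inferInstance, inferInstance, E.rightLCM, E.not_capClosed, E.coreFactorable,
    fun _ => E.eq_one_of_isUnit⟩

end Pool.Agent.Results.MP_4a71d8_al.NotCapClosed
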